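import Pool.Agent.Helper49.PA.GoalsA

/-! # Packet 2501: the separated quotient -/

namespace PA49.PkSep

open PA49

theorem sep : G_SEP := by
  intro L _ _ X _ s
  let r : Setoid X :=
    { r := fun x y => s.k x y = ⊤
      iseqv := ⟨fun x => s.refl x, fun {x y} h => by rw [s.symm]; exact h,
        fun {x y z} h1 h2 => by
          have h := s.tri x y z
          rw [h1, h2, inf_top_eq] at h
          exact top_le_iff.mp h⟩ }
  have hle : ∀ x y x' y' : X, s.k x x' = ⊤ → s.k y y' = ⊤ → s.k x y ≤ s.k x' y' := by
    intro x y x' y' h1 h2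
    have e1 := s.tri x' x y
    have e2 := s.tri x' y y'
    rw [s.symm x' x, h1, top_inf_eq] at e1
    rw [h2, inf_top_eq] at e2
    exact e1.trans e2
  have hk : ∀ (x y x' y' : X), r x x' → r y y' → s.k x y = s.k x' y' := by
    intro x y x' y' h1 h2
    have h1' : s.k x x' = ⊤ := h1
    have h2' : s.k y y' = ⊤ := h2
    refine le_antisymm (hle x y x' y' h1' h2') (hle x' y' x y ?_ ?_)
    · rw [s.symm]; exact h1'
    · rw [s.symm]; exact h2'
  let t : Sim L (Quotient r) :=
    { k := Quotient.lift₂ s.k hk
      refl := fun x => Quotient.inductionOn x fun a => s.refl a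
      symm := fun x y => Quotient.inductionOn₂ x y fun a b => s.symm a b
      tri := fun x y z => Quotient.inductionOn₃ x y z fun a b c => s.tri a b c
      sep := fun x y => Quotient.inductionOn₂ x y fun a b h => Quotient.sound h }
  refine ⟨Quotient r, inferInstance, t, Quotient.mk r, Quotient.mk_surjective, fun x y => rfl⟩

end PA49.PkSep
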